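import Mathlib
import Pool.Agent.N781.F.Fur

/-!
# Furstenberg systems of aperiodic multiplicative functions with values `1` and `-1`: symmetry under
the sign change, independence of any three coordinates, sign patterns at four and five places

The definitions `Val`, `X`, `shift`, `seq`, `IsFurstenbergSystem`, `IsMult` and `Aperiodic` are those of
the starting result `MP_4a7640_nt.UniformGap`: `Val = {-1, 0, 1}`, `X = ℤ → Val`, `seq f` is the point of
`X` with the coordinates `f n`, `n ≥ 1`, and `0` for `n ≤ 0`; a Furstenberg system is a weak-star limit of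
logarithmic averages of point masses on the orbit of `seq f`.
-/

set_option autoImplicit false

namespace Pool.Agent.Results.MP_4a7640_nt.SignSymmetry

open MeasureTheory Finset
open Pool.Agent.Results.MP_4a7640_nt.UniformGap (Val X IsFurstenbergSystem IsMult Aperiodic)

/-- the event that the coordinates at the places `h i` show the signs `s i` -/
def cyl {k : ℕ} (h : Fin k → ℤ) (s : Fin k → ℤˣ) : Set X := {x | ∀ i, (x (h i) : ℝ) = ((s i : ℤ) : ℝ)}

/-- There is an absolute constant `c > 0` such that for every aperiodic multiplicative function `f` with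
values `1` and `-1` and every Furstenberg system `μ` of `f`:
(1) `μ` is invariant under the sign change: opposite sign patterns at any places have the same
probability;
(2) any three coordinates are independent fair signs;
(3) all the 16 sign patterns at any four places have probability at least `c`, and at least `1 / 32` if
the places are in arithmetic progression;
(4) at least 22 of the 32 sign patterns at any five places have positive probability. -/
theorem result : ∃ c : ℝ, 0 < c ∧ ∀ f : ℕ → Val, IsMult f → Aperiodic f →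
    ∀ μ : Measure X, IsFurstenbergSystem f μ →
    (∀ (k : ℕ) (h : Fin k → ℤ) (s : Fin k → ℤˣ), μ.real (cyl h s) = μ.real (cyl h (fun i => -(s i)))) ∧
    (∀ h : Fin 3 → ℤ, Function.Injective h → ∀ s : Fin 3 → ℤˣ, μ.real (cyl h s) = 1 / 8) ∧
    (∀ h : Fin 4 → ℤ, Function.Injective h → ∀ s : Fin 4 → ℤˣ, c ≤ μ.real (cyl h s)) ∧
    (∀ (m : ℤ) (d : ℕ), 1 ≤ d → ∀ s : Fin 4 → ℤˣ,
      1 / 32 ≤ μ.real (cyl (fun i : Fin 4 => m + (i : ℕ) * d) s)) ∧
    (∀ h : Fin 5 → ℤ, Function.Injective h →
      22 ≤ ((univ : Finset (Fin 5 → ℤˣ)).filter (fun s => 0 < μ.real (cyl h s))).card) := by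
  obtain ⟨c, hc0, hc⟩ := Pool.Agent.Results.MP_4a7640_nt.UniformGap.result
  refine ⟨c 3 / 16, by have := hc0 3; positivity, fun f hf ha μ hμ => ?_⟩
  have hprob := hμ.1
  have hm : ∀ {k : ℕ} (h : Fin k → ℤ) (i : Fin k), Measurable (fun x : X => (x (h i) : ℝ)) :=
    fun h i => Pool.Agent.N781.F.y_meas h i
  have hy : ∀ {k : ℕ} (h : Fin k → ℤ) (i : Fin k), ∀ᵐ x ∂μ, (x (h i) : ℝ) = 1 ∨ (x (h i) : ℝ) = -1 :=
    fun h i => Pool.Agent.N781.F.ae_pm hf hμ (h i)
  have hodd : ∀ {k : ℕ} (h : Fin k → ℤ) (S : Finset (Fin k)), Odd S.card →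
      Pool.Agent.N781.F.cor μ (fun i (x : X) => (x (h i) : ℝ)) S = 0 :=
    fun h S hS => Pool.Agent.N781.F.cor_odd hf ha hμ h S hS
  have htwo : ∀ {k : ℕ} (h : Fin k → ℤ), Function.Injective h → ∀ S : Finset (Fin k), S.card = 2 →
      Pool.Agent.N781.F.cor μ (fun i (x : X) => (x (h i) : ℝ)) S = 0 :=
    fun h hh S hS => Pool.Agent.N781.F.cor_two hf ha hμ h hh S hS
  have four : ∀ h : Fin 4 → ℤ, Function.Injective h → ∀ s : Fin 4 → ℤˣ, ∀ e : ℝ,
      |∫ x : X, ∏ i, (x (h i) : ℝ) ∂μ| ≤ 1 - e → e / 16 ≤ μ.real (cyl h s) := by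
    intro h hh s e he
    have h1 := Pool.Agent.N781.F.four μ (fun i (x : X) => (x (h i) : ℝ)) (hm h) (hy h) (hodd h)
      (htwo h hh) s
    have h2 : μ.real (cyl h s) = _ := h1
    rw [h2]
    have h3 : |(∏ i, Pool.Agent.N781.F.sg (s i)) * Pool.Agent.N781.F.cor μ (fun i (x : X) => (x (h i) : ℝ)) univ|
        ≤ 1 - e := by
      rw [abs_mul, abs_prod]
      have h4 : ∏ i, |Pool.Agent.N781.F.sg (s i)| = 1 := by
        apply prod_eq_one
        intro i _
        rcases Pool.Agent.N781.F.sg_pm (s i) with h | h <;> rw [h] <;> norm_num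
      rw [h4, one_mul]
      exact he
    have h4 := (abs_le.1 h3).1
    linarith
  refine ⟨fun k h s => ?_, fun h hh s => ?_, fun h hh s => ?_, fun m d hd s => ?_, fun h hh => ?_⟩
  · exact Pool.Agent.N781.F.flip μ (fun i (x : X) => (x (h i) : ℝ)) (hm h) (hy h) (hodd h) s
  · exact Pool.Agent.N781.F.three μ (fun i (x : X) => (x (h i) : ℝ)) (hm h) (hy h) (hodd h) (htwo h hh) s
  · exact four h hh s (c 3) (hc f hf ha μ hμ 3 h hh)
  · have hinj : Function.Injective (fun i : Fin 4 => m + (i : ℕ) * (d : ℤ)) := by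
      intro i j hij
      simp only at hij
      have h1 : ((i : ℕ) : ℤ) * d = ((j : ℕ) : ℤ) * d := by linarith
      have h2 : ((i : ℕ) : ℤ) = ((j : ℕ) : ℤ) := mul_right_cancel₀ (by exact_mod_cast (by omega : d ≠ 0)) h1
      exact Fin.ext (by exact_mod_cast h2)
    have h1 := four _ hinj s (1 / 2) (by
      have := Pool.Agent.N781.F.ap_half hμ hf ha m d hd
      linarith)
    linarith
  · have h1 : ∀ s : Fin 5 → ℤˣ, μ.real (cyl h s) = (1 + ∑ j, (∏ i ∈ univ.erase j, Pool.Agent.N781.F.sg (s i)) *
        Pool.Agent.N781.F.cor μ (fun i (x : X) => (x (h i) : ℝ)) (univ.erase j)) / 32 :=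
      fun s => Pool.Agent.N781.F.five μ (fun i (x : X) => (x (h i) : ℝ)) (hm h) (hy h) (hodd h) (htwo h hh) s
    have h2 := Pool.Agent.N781.F.count
      (fun j => Pool.Agent.N781.F.cor μ (fun i (x : X) => (x (h i) : ℝ)) (univ.erase j))
      (fun j => by
        have h3 := Pool.Agent.N781.F.int_gap hf ha hμ c hc h hh (univ.erase j) 3 (by
          rw [card_erase_of_mem (mem_univ _)]
          simp)
        have := hc0 3
        linarith)
      (fun s => by
        have h3 := h1 s
        have h4 : 0 ≤ μ.real (cyl h s) := measureReal_nonneg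
        linarith)
    refine h2.trans (le_of_eq ?_)
    congr 1
    apply filter_congr
    intro s _
    rw [h1 s]
    constructor
    · intro h; positivity
    · intro h; linarith

end Pool.Agent.Results.MP_4a7640_nt.SignSymmetry
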